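import Pool.Agent.H20.LIM.Targets

/-!
# (HARM) bounded analytic functions form a relatively compact set in `L^1` of a smaller disc
-/

set_option autoImplicit false

open Complex MeasureTheory Set Filter Topology Metric
open scoped BoundedContinuousFunction

namespace Pool.Agent.H33.LIM

open Pool.Agent.H20.LIM

/-- the retraction onto the closed disc -/
noncomputable def rtr (c : ℂ) (r : ℝ) (z : ℂ) : ℂ := c + ((r / max r ‖z - c‖ : ℝ) : ℂ) * (z - c)

lemma continuous_rtr (c : ℂ) {r : ℝ} (hr : 0 < r) : Continuous (rtr c r) := by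
  unfold rtr
  have h : ∀ z : ℂ, max r ‖z - c‖ ≠ 0 := fun z => (lt_of_lt_of_le hr (le_max_left _ _)).ne'
  have h1 : Continuous fun z : ℂ => r / max r ‖z - c‖ :=
    continuous_const.div (by fun_prop) h
  have h2 : Continuous fun z : ℂ => ((r / max r ‖z - c‖ : ℝ) : ℂ) :=
    Complex.continuous_ofReal.comp h1
  exact continuous_const.add (h2.mul (by fun_prop))

lemma rtr_mem (c : ℂ) {r : ℝ} (hr : 0 < r) (z : ℂ) : rtr c r z ∈ closedBall c r := by
  rw [mem_closedBall, dist_eq_norm]
  unfold rtr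
  have h : 0 < max r ‖z - c‖ := lt_of_lt_of_le hr (le_max_left _ _)
  rw [add_sub_cancel_left, norm_mul, Complex.norm_real, Real.norm_eq_abs,
    abs_of_pos (div_pos hr h), div_mul_eq_mul_div, div_le_iff₀ h]
  exact mul_le_mul_of_nonneg_left (le_max_right _ _) hr.le

lemma rtr_eq (c : ℂ) {r : ℝ} (hr : 0 < r) {z : ℂ} (hz : z ∈ closedBall c r) : rtr c r z = z := by
  rw [mem_closedBall, dist_eq_norm] at hz
  unfold rtr
  rw [max_eq_left hz, div_self hr.ne']
  simp

/-- bounded Lipschitz functions -/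
def BL (X : Type) [MetricSpace X] (C L : ℝ) : Set (X →ᵇ ℝ) :=
  {f | (∀ x, |f x| ≤ C) ∧ ∀ x y, |f x - f y| ≤ L * dist x y}

lemma isCompact_BL (X : Type) [MetricSpace X] [CompactSpace X] (C L : ℝ) :
    IsCompact (BL X C L) := by
  refine BoundedContinuousFunction.arzela_ascoli₂ (Icc (-C) C) isCompact_Icc _ ?_ ?_ ?_
  · have h : BL X C L = (⋂ x, {f : X →ᵇ ℝ | |f x| ≤ C}) ∩
        ⋂ x, ⋂ y, {f : X →ᵇ ℝ | |f x - f y| ≤ L * dist x y} := by
      ext f
      simp only [BL, Set.mem_inter_iff, Set.mem_iInter]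
      rfl
    rw [h]
    have hev : ∀ x : X, Continuous fun f : X →ᵇ ℝ => f x := fun x =>
      continuous_eval_const x
    refine IsClosed.inter (isClosed_iInter fun x => ?_) (isClosed_iInter fun x =>
      isClosed_iInter fun y => ?_)
    · exact isClosed_le (hev x).abs continuous_const
    · exact isClosed_le ((hev x).sub (hev y)).abs continuous_const
  · intro f x hf
    exact abs_le.1 (hf.1 x)
  · refine Metric.equicontinuous_of_continuity_modulus (fun t => L * t) ?_ _ ?_
    · have : Tendsto (fun t : ℝ => L * t) (𝓝 0) (𝓝 (L * 0)) := by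
        exact (continuous_const.mul continuous_id).tendsto 0
      rwa [mul_zero] at this
    · intro x y f
      rw [Real.dist_eq]
      exact f.2.2 x y

/-- Cauchy estimate -/
lemma deriv_est (c : ℂ) (r0 r' C : ℝ) (hr : r0 < r') (g : ℂ → ℂ)
    (hg : DifferentiableOn ℂ g (ball c r')) (hb : ∀ z ∈ ball c r', ‖g z‖ ≤ C) (z : ℂ)
    (hz : z ∈ closedBall c r0) : DifferentiableAt ℂ g z ∧ ‖deriv g z‖ ≤ C / ((r' - r0) / 2) := by
  have hρ : 0 < (r' - r0) / 2 := by linarith
  rw [mem_closedBall] at hz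
  have hsub : closedBall z ((r' - r0) / 2) ⊆ ball c r' := by
    intro w hw
    rw [mem_closedBall] at hw
    rw [mem_ball]
    have := dist_triangle w z c
    linarith
  constructor
  · refine hg.differentiableAt (isOpen_ball.mem_nhds ?_)
    rw [mem_ball]
    linarith
  · refine Complex.norm_deriv_le_of_forall_mem_sphere_norm_le hρ ?_ fun w hw => ?_
    · refine DifferentiableOn.diffContOnCl ?_
      rw [closure_ball z hρ.ne']
      exact hg.mono hsub
    · exact hb w (hsub (sphere_subset_closedBall hw))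

theorem pf_harm : T_HARM := by
  intro c r0 r' C hr0 hr
  obtain ⟨L, hL⟩ : ∃ L : ℝ, L = C / ((r' - r0) / 2) := ⟨_, rfl⟩
  obtain ⟨π, hπ⟩ : ∃ π : C(ℂ, closedBall c r0), ∀ z, (π z : ℂ) = rtr c r0 z :=
    ⟨⟨fun z => ⟨rtr c r0 z, rtr_mem c hr0 z⟩, (continuous_rtr c hr0).subtype_mk _⟩, fun _ => rfl⟩
  have hfin : IsFiniteMeasure (volume.restrict (closedBall c r0)) :=
    ⟨by rw [Measure.restrict_apply_univ]; exact measure_closedBall_lt_top⟩
  have hcomp : CompactSpace (closedBall c r0) :=
    isCompact_iff_compactSpace.1 (isCompact_closedBall c r0)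
  obtain ⟨Φ, hΦ⟩ : ∃ Φ : (closedBall c r0 →ᵇ ℝ) → Lp ℝ 1 (volume.restrict (closedBall c r0)),
      Φ = fun f => BoundedContinuousFunction.toLp (E := ℝ) 1 (volume.restrict (closedBall c r0)) ℝ
        (f.compContinuous π) := ⟨_, rfl⟩
  have hΦc : Continuous Φ := by
    rw [hΦ]
    exact (BoundedContinuousFunction.toLp (E := ℝ) 1 (volume.restrict (closedBall c r0))
      ℝ).continuous.comp (BoundedContinuousFunction.continuous_compContinuous π)
  refine ⟨Φ '' BL (closedBall c r0) C L, (isCompact_BL _ C L).image hΦc, fun g hg hb => ?_⟩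
  have hgc : ContinuousOn g (closedBall c r0) := fun z hz =>
    (deriv_est c r0 r' C hr g hg hb z hz).1.continuousAt.continuousWithinAt
  obtain ⟨f, hf⟩ : ∃ f : closedBall c r0 →ᵇ ℝ, ∀ z, f z = (g z).re := by
    refine ⟨BoundedContinuousFunction.mkOfCompact ⟨fun z : closedBall c r0 => (g z).re, ?_⟩,
      fun _ => rfl⟩
    exact Complex.continuous_re.comp (continuousOn_iff_continuous_domRestrict.1 hgc)
  refine ⟨Φ f, ⟨f, ⟨fun x => ?_, fun x y => ?_⟩, rfl⟩, ?_⟩
  · rw [hf]
    refine (Complex.abs_re_le_norm _).trans (hb _ ?_)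
    exact closedBall_subset_ball hr x.2
  · rw [hf, hf, ← Complex.sub_re]
    refine (Complex.abs_re_le_norm _).trans ?_
    have h1 := (convex_closedBall c r0).norm_image_sub_le_of_norm_deriv_le (f := g) (C := L)
      (fun z hz => (deriv_est c r0 r' C hr g hg hb z hz).1)
      (fun z hz => by rw [hL]; exact (deriv_est c r0 r' C hr g hg hb z hz).2) y.2 x.2
    rw [Subtype.dist_eq, dist_eq_norm]
    exact h1
  · have h1 := BoundedContinuousFunction.coeFn_toLp (E := ℝ) (p := 1)
      (μ := volume.restrict (closedBall c r0)) ℝ (f.compContinuous π)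
    rw [hΦ]
    filter_upwards [h1, ae_restrict_mem measurableSet_closedBall] with z h2 hz
    rw [h2]
    show f (π z) = (g z).re
    rw [hf, hπ, rtr_eq c hr0 hz]

end Pool.Agent.H33.LIM
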